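import Pool.Agent.H963.CJ.Fam

/-!
# MP_610fe3_an: `C⁰`-close Anosov diffeomorphisms are topologically conjugate
-/

set_option autoImplicit false

open scoped Manifold ContDiff Topology
open Set Filter

namespace Pool.Agent.Results.MP_610fe3_an.C0Rigidity

open Pool.Agent.H721R2 Pool.Agent.H789R2.AN

/-- The `C¹` diffeomorphism `f` is Anosov (with some splitting of the tangent bundle). -/
def Anosov {E : Type*} [NormedAddCommGroup E] [NormedSpace ℝ E] {M : Type*} [TopologicalSpace M]
    [ChartedSpace E M] [IsManifold 𝓘(ℝ, E) 1 M] (f : Diffeomorph 𝓘(ℝ, E) 𝓘(ℝ, E) M M 1) : Prop :=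
  ∃ Es Eu : ∀ x : M, Submodule ℝ (TangentSpace 𝓘(ℝ, E) x), IsAnosov f Es Eu

/-- **`C⁰`-rigidity of Anosov diffeomorphisms.**
Let `M` be a closed manifold.

(1) Let `g` be a `C¹` Anosov diffeomorphism of `M`, transitive or not.  For every neighbourhood `𝒱`
of the diagonal of `M × M` there is a neighbourhood `𝒰` of the diagonal such that the following
holds for EVERY `C¹` Anosov diffeomorphism `f` of `M` with `(f x, g x) ∈ 𝒰` for all `x`, that is, for
all Anosov `f` that are `C⁰`-close to `g`; the derivatives, the splittings and the constants of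
hyperbolicity of `f` and `g` are not related.  There is a homeomorphism `h : M → M`, `𝒱`-close to the
identity, with `h ∘ f = g ∘ h`: so `f` and `g` are topologically conjugate.  In particular `h` is a
bijection of the fixed points of `fⁿ` onto those of `gⁿ`, for all `n ≥ 1`, and `f` is topologically
transitive if and only if `g` is.

(2) Let `φ t`, `t ∈ X`, be a `C⁰`-continuous family of `C¹` Anosov diffeomorphisms of `M`, over a
connected space `X` (for example a path of Anosov diffeomorphisms, continuous in the `C⁰` topology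
only).  Then all the `φ t` are topologically conjugate to each other; in particular either all of
them are topologically transitive or none is.

So topological transitivity, and the whole topological conjugacy class, are locally constant on
the set of all Anosov diffeomorphisms of `M` with the `C⁰` topology. -/
theorem result (E : Type*) [NormedAddCommGroup E] [NormedSpace ℝ E] [FiniteDimensional ℝ E]
    (M : Type*) [TopologicalSpace M] [T2Space M] [CompactSpace M]
    [ChartedSpace E M] [IsManifold 𝓘(ℝ, E) ∞ M] (X : Type*) [TopologicalSpace X]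
    [ConnectedSpace X] :
    (∀ g : Diffeomorph 𝓘(ℝ, E) 𝓘(ℝ, E) M M 1, Anosov g → ∀ 𝒱 ∈ 𝓝ˢ (diagonal M),
      ∃ 𝒰 ∈ 𝓝ˢ (diagonal M), ∀ f : Diffeomorph 𝓘(ℝ, E) 𝓘(ℝ, E) M M 1, Anosov f →
        (∀ x, (f x, g x) ∈ 𝒰) →
        ∃ h : M ≃ₜ M, (∀ x, (x, h x) ∈ 𝒱) ∧ (∀ x, h (f x) = g (h x)) ∧
          (∀ n : ℕ, 1 ≤ n → BijOn h {x | f^[n] x = x} {x | g^[n] x = x}) ∧
          (TopTransitive f ↔ TopTransitive g)) ∧
    (∀ φ : X → Diffeomorph 𝓘(ℝ, E) 𝓘(ℝ, E) M M 1, Continuous (fun p : X × M => φ p.1 p.2) →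
      (∀ t, Anosov (φ t)) → ∀ t t' : X,
        (∃ h : M ≃ₜ M, ∀ x, h (φ t x) = φ t' (h x)) ∧
        (TopTransitive (φ t) ↔ TopTransitive (φ t'))) := by
  refine ⟨fun g ⟨Es', Eu', hg⟩ 𝒱 hV => ?_, fun φ hφ hA t t' => ?_⟩
  · obtain ⟨𝒰, hU, h⟩ := Pool.Agent.H963.CJ.main g Es' Eu' hg 𝒱 hV
    exact ⟨𝒰, hU, fun f ⟨Es, Eu, hf⟩ hfg => h f Es Eu hf hfg⟩
  · obtain ⟨h, hh⟩ := Pool.Agent.H963.CJ.family φ hφ hA t t'
    refine ⟨⟨h, hh⟩, Pool.Agent.H963.CJ.trans_conj h hh,
      Pool.Agent.H963.CJ.trans_conj h.symm fun x => ?_⟩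
    rw [Homeomorph.symm_apply_eq, hh, Homeomorph.apply_symm_apply]

end Pool.Agent.Results.MP_610fe3_an.C0Rigidity
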