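import Pool.Agent.H244.Nh7

/-!
# MP_610fe3_an: complementary domains of attractors in the stable leaves

Definitions (`Pool/Agent/H244/NhDef.lean`): `Shrinks f z S` (the images `fⁿ(S)` shrink to the orbit
of `z`: `S` is a bounded subset of the stable leaf of `z`), `Dom f A z` (the component of `z` in
`W^s(z) ∖ A`), `Cont f A a` (the union of the continua through `a` in `A ∩ W^s(a)`).
`UnstSat f A` and `Asym` (`Pool/Graph/R_seed8/TH289/Def.lean`): `A` is nonempty, closed,
`f`-invariant and contains the unstable set of each of its points; forward asymptotic points.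
-/

set_option autoImplicit false

open scoped Manifold ContDiff Topology
open Set Filter

namespace Pool.Agent.Results.MP_610fe3_an.ComplementaryDomains

open Pool.Agent.H721R2 Pool.Agent.H789R2.AN Pool.Agent.TH289 Pool.Agent.H244.NhDef

/-- **Complementary domains of attractors of Anosov diffeomorphisms.**
Let `f` be a `C¹` Anosov diffeomorphism of a closed connected manifold `M`, with stable and unstable
leaves of any dimensions, and let `A ≠ M` be a nonempty closed `f`-invariant set that contains the
unstable set of each of its points (an attractor; such sets exist if `f` is not transitive).  For a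
point `z ∉ A` forward asymptotic to a point of `A` let `V(z) = Dom f A z` be the component of `z` in
`W^s(z) ∖ A`.

(1) Not all the domains `V(z)` are bounded (relatively compact in the stable leaves).

(2) If ONE of the domains is bounded then
* every neighbourhood `U` of `A` contains an unbounded domain `V(y)`, where `y` is a limit of points
  `z` with bounded domains `V(z) ⊆ U`;
* there is a point `a ∈ A` such that the continua through `a` in `A ∩ W^s(a)` are of unbounded
  size.  So if the components of `A` in the stable leaves are compact then they do not separate: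
  all the domains `V(z)` are unbounded.

(3) Therefore `f` is topologically transitive if every set `A` as above contains such a set `A'`
for which the continua through any point `a` in `A' ∩ W^s(a)` are of bounded size and at least one
complementary domain in a stable leaf is bounded.  (If the stable leaves are one-dimensional, every
minimal set `A'` of this kind has both properties, and one obtains Newhouse's theorem.) -/
theorem result (E : Type*) [NormedAddCommGroup E] [NormedSpace ℝ E] [FiniteDimensional ℝ E]
    (M : Type*) [TopologicalSpace M] [T2Space M] [CompactSpace M] [ConnectedSpace M]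
    [ChartedSpace E M] [IsManifold 𝓘(ℝ, E) ∞ M] (f : Diffeomorph 𝓘(ℝ, E) 𝓘(ℝ, E) M M 1)
    (Es Eu : ∀ x : M, Submodule ℝ (TangentSpace 𝓘(ℝ, E) x)) (hf : IsAnosov f Es Eu) :
    (∀ A : Set M, UnstSat f.toHomeomorph A → A ≠ univ →
      (∃ z ∉ A, (∃ a ∈ A, Asym f z a) ∧ ¬ Shrinks f z (Dom f A z)) ∧
      ((∃ z ∉ A, (∃ a ∈ A, Asym f z a) ∧ Shrinks f z (Dom f A z)) →
        (∀ U : Set M, IsOpen U → A ⊆ U → ∃ y ∉ A, Dom f A y ⊆ U ∧ ¬ Shrinks f y (Dom f A y) ∧
          y ∈ closure {z | z ∉ A ∧ Shrinks f z (Dom f A z) ∧ Dom f A z ⊆ U}) ∧
        ∃ a ∈ A, ¬ Shrinks f a (Cont f A a))) ∧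
    ((∀ A : Set M, UnstSat f.toHomeomorph A → A ≠ univ →
        ∃ A' ⊆ A, UnstSat f.toHomeomorph A' ∧
          (∃ z ∉ A', (∃ a ∈ A', Asym f z a) ∧ Shrinks f z (Dom f A' z)) ∧
          ∀ a ∈ A', Shrinks f a (Cont f A' a)) → TopTransitive f) :=
  Pool.Agent.H244.Nh.main f Es Eu hf

end Pool.Agent.Results.MP_610fe3_an.ComplementaryDomains
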