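import Pool.Agent.H244.Nw11

/-!
# MP_610fe3_an: a fibred Franks-Newhouse theorem
-/

set_option autoImplicit false

open scoped Manifold ContDiff Topology
open Set Filter

namespace Pool.Agent.Results.MP_610fe3_an.FibredCodimensionOne

open Pool.Agent.H721R2 Pool.Agent.H789R2.AN

section

variable {E : Type*} [NormedAddCommGroup E] [NormedSpace ℝ E]
  {M : Type*} [TopologicalSpace M] [ChartedSpace E M]

/-- The dimension of `V x ∩ ker dp_x`, the part of the tangent space of the fibre of `p` through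
`x` which lies in `V x`. -/
noncomputable def fibreRank (E' : Type*) [NormedAddCommGroup E'] [NormedSpace ℝ E']
    {B : Type*} [TopologicalSpace B] [ChartedSpace E' B] (p : M → B)
    (V : ∀ x : M, Submodule ℝ (TangentSpace 𝓘(ℝ, E) x)) (x : M) : ℕ :=
  Module.finrank ℝ (V x ⊓ LinearMap.ker (mfderiv 𝓘(ℝ, E) 𝓘(ℝ, E') p x).toLinearMap :
    Submodule ℝ (TangentSpace 𝓘(ℝ, E) x))

/-- The tangent space of the fibre of `p` through `x` is the sum of its intersections with `Es x`
and `Eu x`. -/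
def FibreSplits (E' : Type*) [NormedAddCommGroup E'] [NormedSpace ℝ E']
    {B : Type*} [TopologicalSpace B] [ChartedSpace E' B] (p : M → B)
    (Es Eu : ∀ x : M, Submodule ℝ (TangentSpace 𝓘(ℝ, E) x)) (x : M) : Prop :=
  ∀ v : TangentSpace 𝓘(ℝ, E) x, mfderiv 𝓘(ℝ, E) 𝓘(ℝ, E') p x v = 0 →
    ∃ s ∈ Es x, ∃ u ∈ Eu x, mfderiv 𝓘(ℝ, E) 𝓘(ℝ, E') p x s = 0 ∧
      mfderiv 𝓘(ℝ, E) 𝓘(ℝ, E') p x u = 0 ∧ s + u = v

end

/-- **A fibred Franks-Newhouse theorem.**
Let `M` and `B` be closed connected manifolds, let `f` be a `C¹` Anosov diffeomorphism of `M`, let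
`p : M → B` be a `C¹` submersion and let `g` be a `C¹` diffeomorphism of `B` with `p ∘ f = g ∘ p`.
The fibres of `p` may have any dimension and need not be connected, and nothing else is assumed on
`g` and on the behaviour of `f` along the fibres.

(1) `g` is Anosov if and only if the tangent spaces of the fibres are the sums of their stable and
unstable parts (their intersections with `Es` and `Eu`).

(2) If `g` is topologically transitive (for instance, if `f` is) then `g` is Anosov, and so the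
tangent spaces of the fibres split.

(3) Suppose that `dim M ≤ dim B + 3` or, more generally, that at ONE point of `M` the stable part or
the unstable part of the tangent space of the fibre has dimension at most one.  Then `f` is
topologically transitive if and only if `g` is.  If in addition `g` is Anosov and `dim B ≤ 3` or,
more generally, `g` is Anosov of codimension one, then `f` is topologically transitive.

(If `B` is a point then (3) is the theorem of Franks and Newhouse.) -/
theorem result (E : Type*) [NormedAddCommGroup E] [NormedSpace ℝ E] [FiniteDimensional ℝ E]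
    (M : Type*) [TopologicalSpace M] [T2Space M] [CompactSpace M] [ConnectedSpace M]
    [ChartedSpace E M] [IsManifold 𝓘(ℝ, E) ∞ M]
    (E' : Type*) [NormedAddCommGroup E'] [NormedSpace ℝ E'] [FiniteDimensional ℝ E']
    (B : Type*) [TopologicalSpace B] [T2Space B] [CompactSpace B] [ConnectedSpace B]
    [ChartedSpace E' B] [IsManifold 𝓘(ℝ, E') ∞ B]
    (f : Diffeomorph 𝓘(ℝ, E) 𝓘(ℝ, E) M M 1)
    (Es Eu : ∀ x : M, Submodule ℝ (TangentSpace 𝓘(ℝ, E) x)) (hf : IsAnosov f Es Eu)
    (p : M → B) (hp : ContMDiff 𝓘(ℝ, E) 𝓘(ℝ, E') 1 p)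
    (hpd : ∀ x, Function.Surjective (mfderiv 𝓘(ℝ, E) 𝓘(ℝ, E') p x))
    (g : Diffeomorph 𝓘(ℝ, E') 𝓘(ℝ, E') B B 1) (hfg : ∀ x, p (f x) = g (p x)) :
    ((∃ Gs Gu : ∀ y : B, Submodule ℝ (TangentSpace 𝓘(ℝ, E') y), IsAnosov g Gs Gu) ↔
      ∀ x, FibreSplits E' p Es Eu x) ∧
    (TopTransitive g →
      ∃ Gs Gu : ∀ y : B, Submodule ℝ (TangentSpace 𝓘(ℝ, E') y), IsAnosov g Gs Gu) ∧
    ((Module.finrank ℝ E ≤ Module.finrank ℝ E' + 3 ∨
        ∃ x : M, fibreRank E' p Es x ≤ 1 ∨ fibreRank E' p Eu x ≤ 1) →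
      (TopTransitive f ↔ TopTransitive g) ∧
      ∀ Gs Gu : ∀ y : B, Submodule ℝ (TangentSpace 𝓘(ℝ, E') y), IsAnosov g Gs Gu →
        (Module.finrank ℝ E' ≤ 3 ∨
          ∃ y : B, Module.finrank ℝ (Gs y) ≤ 1 ∨ Module.finrank ℝ (Gu y) ≤ 1) →
        TopTransitive f) :=
  ⟨Pool.Agent.H244.Nh.base_iff f Es Eu hf p hp hpd g hfg,
    Pool.Agent.H244.Nh.anosov_of_trans f Es Eu hf p hp hpd g hfg,
    fun hcod => Pool.Agent.H244.Nh.main_fib' f Es Eu hf p hp hpd g hfg hcod⟩

end Pool.Agent.Results.MP_610fe3_an.FibredCodimensionOne
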