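import Pool.Agent.H963.HT.Hb3

/-!
# MP_610fe3_an: Anosov diffeomorphisms with the same action on the fundamental group
-/

set_option autoImplicit false

open scoped Manifold ContDiff Topology
open Set Filter

namespace Pool.Agent.Results.MP_610fe3_an.HomotopicAnosov

open Pool.Agent.H721R2 Pool.Agent.H789R2.AN Pool.Agent.H223.CE

universe u v v' w w' x

/-- Comparison of `f : M' → M'` and `g : M → M`, with the lifts `F`, `G` to the coverings `P' : X' → M'`,
`P : X → M` with the same deck group `Γ`.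

(1) If `X` is homeomorphic to the vector space `E` (Euclidean space), then for all `n ≥ 1`, `γ ∈ Γ` the lifts
`γ⁻¹ Fⁿ` and `γ⁻¹ Gⁿ` of `fⁿ` and `gⁿ` have the same, finite, number of fixed points; `fⁿ` and `gⁿ` have
the same number of fixed points; and `F` satisfies `NWeak` if and only if `G` does.

(2) If `G` satisfies `NWeak` (for every lift `ψ = γ⁻¹ Gⁿ` of every iterate there is a `K ≥ 1` such that `ψ^K`
has fewer than `2^K` fixed points), then `X` is homeomorphic to `E`, `f` and `g` are topologically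
transitive, and they are topologically conjugate, `h ∘ f = g ∘ h` with a homeomorphism
`h : M' → M`, which has a lift `H : X' → X` with `H ∘ F = G ∘ H` that commutes with `Γ`. -/
def Same (E : Type u) [NormedAddCommGroup E] {M : Type v} {M' : Type v'} {X : Type w} {X' : Type w'}
    [TopologicalSpace M] [TopologicalSpace M'] [TopologicalSpace X] [TopologicalSpace X']
    (Γ : Type x) [Group Γ] [MulAction Γ X] [MulAction Γ X'] (P' : X' → M') (P : X → M)
    (f : M' → M') (g : M → M) (F : X' → X') (G : X → X) : Prop :=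
  (Nonempty (X ≃ₜ E) → (NWeak Γ F ↔ NWeak Γ G) ∧ ∀ n : ℕ, 1 ≤ n →
    {m : M' | f^[n] m = m}.encard = {m : M | g^[n] m = m}.encard ∧
      ∀ γ : Γ, {x : X' | F^[n] x = γ • x}.Finite ∧
        {x : X' | F^[n] x = γ • x}.encard = {x : X | G^[n] x = γ • x}.encard) ∧
  (NWeak Γ G → Nonempty (X ≃ₜ E) ∧ TopTransitive f ∧ TopTransitive g ∧
    ∃ (H : X' ≃ₜ X) (h : M' ≃ₜ M), (∀ (γ : Γ) (x : X'), H (γ • x) = γ • H x) ∧
      (∀ x, H (F x) = G (H x)) ∧ (∀ x, P (H x) = h (P' x)) ∧ ∀ m, h (f m) = g (h m))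

theorem same_of {E : Type u} [NormedAddCommGroup E] [NormedSpace ℝ E] [FiniteDimensional ℝ E]
    {M : Type v} [TopologicalSpace M] [T2Space M] [CompactSpace M] [ConnectedSpace M]
    [ChartedSpace E M] [IsManifold 𝓘(ℝ, E) ∞ M]
    {M' : Type v'} [TopologicalSpace M'] [T2Space M'] [CompactSpace M'] [ConnectedSpace M']
    [ChartedSpace E M'] [IsManifold 𝓘(ℝ, E) ∞ M']
    {f : Diffeomorph 𝓘(ℝ, E) 𝓘(ℝ, E) M' M' 1} {g : Diffeomorph 𝓘(ℝ, E) 𝓘(ℝ, E) M M 1}
    (hf : ∃ Es Eu : ∀ x : M', Submodule ℝ (TangentSpace 𝓘(ℝ, E) x), IsAnosov f Es Eu)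
    (hg : ∃ Es Eu : ∀ x : M, Submodule ℝ (TangentSpace 𝓘(ℝ, E) x), IsAnosov g Es Eu)
    {X : Type w} [MetricSpace X] [ProperSpace X] [SimplyConnectedSpace X]
    {Γ : Type x} [Group Γ] [MulAction Γ X] [IsIsometricSMul Γ X] [FaithfulSMul Γ X]
    {P : X → M} (hP : IsCoveringMap P) (hs : Function.Surjective P)
    (hΓ : ∀ x y : X, P x = P y ↔ ∃ γ : Γ, γ • x = y)
    {G : X ≃ₜ X} (hG : ∀ x, P (G x) = g (P x)) (hCG : CoarselyHyperbolic G) {φ : Γ ≃* Γ}
    (hφ : ∀ (γ : Γ) (x : X), G (γ • x) = φ γ • G x)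
    {X' : Type w'} [TopologicalSpace X'] [MulAction Γ X'] [ContinuousConstSMul Γ X']
    [FaithfulSMul Γ X'] {P' : X' → M'} {F : X' ≃ₜ X'} (hX : Nonempty (X' ≃ₜ X))
    (hP' : IsCoveringMap P') (hs' : Function.Surjective P')
    (hΓ' : ∀ x y : X', P' x = P' y ↔ ∃ γ : Γ, γ • x = y) (hF : ∀ x, P' (F x) = f (P' x))
    (hφF : ∀ (γ : Γ) (x : X'), F (γ • x) = φ γ • F x) : Same E Γ P' P f g F G := by
  obtain ⟨Es, Eu, hf⟩ := hf
  obtain ⟨Es', Eu', hg⟩ := hg
  obtain ⟨s⟩ := hX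
  have _ : ConnectedSpace X' := s.symm.surjective.connectedSpace s.symm.continuous
  have tG := man_tfae g Es' Eu' hg P hP hs hΓ G hG (Or.inl hCG)
  refine ⟨fun ⟨e⟩ => ?_, fun hN => ?_⟩
  · obtain ⟨h1, h2, -⟩ := Pool.Agent.H963.HT.hb_all f g Es Eu Es' Eu' hf hg P' hP' hs' hΓ'
      (fun γ => continuous_const_smul γ) P hP hs hΓ F hF G hG φ hφF hφ hCG (s.trans e) e
    exact ⟨h2, fun n hn => ⟨(h1 n hn).2, (h1 n hn).1⟩⟩
  · obtain ⟨e⟩ := Pool.Agent.H963.HT.coords g Es' Eu' hg P hP hs hΓ G hG hCG hN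
    obtain ⟨-, -, h3⟩ := Pool.Agent.H963.HT.hb_all f g Es Eu Es' Eu' hf hg P' hP' hs' hΓ'
      (fun γ => continuous_const_smul γ) P hP hs hΓ F hF G hG φ hφF hφ hCG (s.trans e) e
    have hG1 := (tG.out 4 0).mp hN
    exact ⟨⟨e⟩, (h3 hN).1, hG1.1, (h3 hN).2⟩

/-- **Anosov diffeomorphisms with the same action on the fundamental group.**
Let `f`, `g` be `C¹` Anosov diffeomorphisms of the closed connected manifolds `M'`, `M` (modelled on the
vector space `E`), `P : X → M` the universal covering, with deck group `Γ`, acting by isometries of the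
proper metric space `X`, and let `G` be a lift of `g`, coarsely hyperbolic: for some `N ≥ 1` and `R`, if
`d(x, y) ≥ R`, then `G^N` or `G^(-N)` at least doubles `d(x, y)`.  Let `φ` be the automorphism of `Γ` with
`G ∘ γ = φ(γ) ∘ G`.  Nothing is assumed on `f` besides the Anosov property.

(A) Let `P' : X' → M'` be a covering of `M'` with deck group `Γ`, such that `X'` is homeomorphic to `X`
(not equivariantly; for example both are Euclidean spaces), and let `F` be a lift of `f` which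
induces the same automorphism `φ` of `Γ`.  Then (1) and (2) of `Same` hold: `f` and `g` have the
same numbers of periodic points, in each class of lifts, if `X` is Euclidean; and if the one diffeomorphism
`g` satisfies `NWeak`, then `f` and `g` are transitive and topologically conjugate (and
`M'` is homeomorphic to `M`).

(B) If `r : M' → M` is a homeomorphism and `r ∘ f ∘ r⁻¹` is HOMOTOPIC to `g`, then `f` has such a lift
`F` to `r⁻¹ ∘ P : X → M'`, and hence (1) and (2) hold.  (For example `M' = M` and `r = id`.) -/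
theorem result (E : Type u) [NormedAddCommGroup E] [NormedSpace ℝ E] [FiniteDimensional ℝ E]
    (M : Type v) [TopologicalSpace M] [T2Space M] [CompactSpace M] [ConnectedSpace M]
    [ChartedSpace E M] [IsManifold 𝓘(ℝ, E) ∞ M]
    (M' : Type v') [TopologicalSpace M'] [T2Space M'] [CompactSpace M'] [ConnectedSpace M']
    [ChartedSpace E M'] [IsManifold 𝓘(ℝ, E) ∞ M']
    (f : Diffeomorph 𝓘(ℝ, E) 𝓘(ℝ, E) M' M' 1) (g : Diffeomorph 𝓘(ℝ, E) 𝓘(ℝ, E) M M 1)
    (hf : ∃ Es Eu : ∀ x : M', Submodule ℝ (TangentSpace 𝓘(ℝ, E) x), IsAnosov f Es Eu)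
    (hg : ∃ Es Eu : ∀ x : M, Submodule ℝ (TangentSpace 𝓘(ℝ, E) x), IsAnosov g Es Eu)
    (X : Type w) [MetricSpace X] [ProperSpace X] [SimplyConnectedSpace X]
    (Γ : Type x) [Group Γ] [MulAction Γ X] [IsIsometricSMul Γ X] [FaithfulSMul Γ X]
    (P : X → M) (hP : IsCoveringMap P) (hs : Function.Surjective P)
    (hΓ : ∀ x y : X, P x = P y ↔ ∃ γ : Γ, γ • x = y)
    (G : X ≃ₜ X) (hG : ∀ x, P (G x) = g (P x)) (hCG : CoarselyHyperbolic G) :
    ∃ φ : Γ ≃* Γ, (∀ (γ : Γ) (x : X), G (γ • x) = φ γ • G x) ∧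
      -- (A)
      (∀ (X' : Type w') [TopologicalSpace X'] [MulAction Γ X'] [ContinuousConstSMul Γ X']
        [FaithfulSMul Γ X'] (P' : X' → M') (F : X' ≃ₜ X'), Nonempty (X' ≃ₜ X) →
        IsCoveringMap P' → Function.Surjective P' →
        (∀ x y : X', P' x = P' y ↔ ∃ γ : Γ, γ • x = y) → (∀ x, P' (F x) = f (P' x)) →
        (∀ (γ : Γ) (x : X'), F (γ • x) = φ γ • F x) → Same E Γ P' P f g F G) ∧
      -- (B)
      ∀ r : M' ≃ₜ M, ContinuousMap.Homotopic (⟨g, g.continuous⟩ : C(M, M))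
        ⟨fun m => r (f (r.symm m)), r.continuous.comp (f.continuous.comp r.symm.continuous)⟩ →
        ∃ F : X ≃ₜ X, (∀ x, P (F x) = r (f (r.symm (P x)))) ∧
          (∀ (γ : Γ) (x : X), F (γ • x) = φ γ • F x) ∧ Same E Γ (r.symm ∘ P) P f g F G := by
  obtain ⟨φ, hφ⟩ := Pool.Agent.H963.HT.exists_phi P hP hΓ g.toHomeomorph G hG
  refine ⟨φ, hφ, fun X' _ _ _ _ P' F hX hP' hs' hΓ' hF hφF =>
    same_of hf hg hP hs hΓ hG hCG hφ hX hP' hs' hΓ' hF hφF, fun r hr => ?_⟩
  have _ : LocallyPathConnectedSpace X := Pool.Agent.H963.HT.t_LP E M X P hP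
  obtain ⟨F, hF1, hF2⟩ := Pool.Agent.H963.HT.exists_lift P hP hΓ g.toHomeomorph
    ((r.symm.trans f.toHomeomorph).trans r) hr G hG φ hφ
  have hF1' : ∀ x, P (F x) = r (f (r.symm (P x))) := hF1
  have _ : ContinuousConstSMul Γ X := ⟨fun γ => (isometry_smul X γ).continuous⟩
  refine ⟨F, hF1', hF2, same_of hf hg hP hs hΓ hG hCG hφ ⟨Homeomorph.refl X⟩
    (hP.homeomorph_comp r.symm) (r.symm.surjective.comp hs) (fun x y => ?_) (fun x => ?_) hF2⟩
  · rw [← hΓ]
    exact r.symm.injective.eq_iff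
  · show r.symm (P (F x)) = f (r.symm (P x))
    rw [hF1', Homeomorph.symm_apply_apply]

end Pool.Agent.Results.MP_610fe3_an.HomotopicAnosov
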